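import Mathlib
import Pool.Agent.Y1.HZ.Main
import Pool.Agent.TH504.VY.Main

/-!
# Balanced forms on abelian varieties with complex multiplication, and their integrals
-/

set_option autoImplicit false
set_option linter.unusedSectionVars false
set_option linter.unusedVariables false

namespace Pool.Agent.Q64.HC

open Matrix NumberField Module Equiv Pool.Agent.H204R3.CM Pool.Agent.TH131.GHC
  Pool.Agent.H977R3.CM Pool.Agent.TH504.VY Pool.Agent.TH504.CB Pool.Agent.TH170.CM
  Pool.Agent.Y1.HZ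

noncomputable section

variable {ι J : Type} [Fintype ι] [Fintype J] {E : ι → Type} [∀ i, Field (E i)]
  [∀ i, NumberField (E i)] [∀ i, IsCMField (E i)]
  {L : Type} [Field L] [NumberField L] [IsGalois ℚ L]
  {Φ : ∀ i, Set (E i →+* ℂ)} (hΦ : ∀ i, IsCMType (Φ i)) (t : J → ι) (j₀ : L →+* ℂ)
  {v k j : ℕ}

/-- The letter of a coordinate. -/
def lt (t : J → ι) (y : XX E t L) : Σ i, (E i →+* L) := ⟨t y.1, y.2⟩

/-- The conjugate coordinate. -/
def bX (y : XX E t L) : XX E t L := ⟨y.1, cbar y.2⟩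

theorem bX_bX (y : XX E t L) : bX t (bX t y) = y := by
  rcases y with ⟨a, φ⟩
  simp only [bX, cbar_cbar]

open Classical in
/-- The number of coordinates with a given letter does not change under conjugation. -/
theorem card_letter (i : ι) (φ : E i →+* L) :
    (Finset.univ.filter (fun y : XX E t L => lt t y = ⟨i, φ⟩)).card =
      (Finset.univ.filter (fun y : XX E t L => lt t y = ⟨i, cbar φ⟩)).card := by
  refine Finset.card_bij (fun y _ => bX t y) ?_ ?_ ?_
  · intro y hy
    rw [Finset.mem_filter] at hy ⊢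
    refine ⟨Finset.mem_univ _, ?_⟩
    rcases y with ⟨a, ψ⟩
    obtain ⟨h1, h2⟩ := Sigma.mk.inj_iff.1 hy.2
    subst h1
    have h3 : ψ = φ := eq_of_heq h2
    subst h3
    rfl
  · intro y _ y' _ h
    rw [← bX_bX t y, h, bX_bX]
  · intro y hy
    rw [Finset.mem_filter] at hy
    refine ⟨bX t y, ?_, bX_bX t y⟩
    rw [Finset.mem_filter]
    refine ⟨Finset.mem_univ _, ?_⟩
    rcases y with ⟨a, ψ⟩
    obtain ⟨h1, h2⟩ := Sigma.mk.inj_iff.1 hy.2
    subst h1
    have h3 : ψ = cbar φ := eq_of_heq h2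
    refine Sigma.mk.inj_iff.2 ⟨rfl, heq_of_eq ?_⟩
    change cbar ψ = φ
    rw [h3, cbar_cbar]

open Classical in
theorem cnt_eq (I : Fin k → XX E t L) (y : Σ i, (E i →+* L)) :
    cnt t I y = ((Finset.univ.filter (fun l => lt t (I l) = y)).card : ℤ) := rfl

open Classical in
/-- The complement of a balanced set is balanced. -/
theorem dif_compl (I' : Fin k → XX E t L) (I : Fin j → XX E t L)
    (hb : Function.Bijective (Sum.elim I' I)) (i : ι) (φ : E i →+* L) :
    dif t I i φ = - dif t I' i φ := by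
  have h1 : ∀ y : Σ i, (E i →+* L), cnt t I' y + cnt t I y =
      ((Finset.univ.filter (fun x : XX E t L => lt t x = y)).card : ℤ) := by
    intro y
    have h2 : (Finset.univ.filter (fun x : XX E t L => lt t x = y)).card =
        (Finset.univ.filter (fun l : Fin k ⊕ Fin j => lt t (Sum.elim I' I l) = y)).card := by
      rw [← Fintype.card_subtype, ← Fintype.card_subtype]
      refine (Fintype.card_congr ?_).symm
      exact (Equiv.ofBijective _ hb).subtypeEquiv fun l => Iff.rfl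
    rw [h2, cnt_eq, cnt_eq, ← Nat.cast_add]
    congr 1
    rw [Finset.card_filter, Finset.card_filter, Finset.card_filter, Fintype.sum_sum_type]
    rfl
  have h2 := h1 ⟨i, φ⟩
  have h3 := h1 ⟨i, cbar φ⟩
  rw [← card_letter t i φ] at h3
  rw [dif, dif]
  linarith

/-- The translate of a coordinate. -/
def gX (g : L ≃ₐ[ℚ] L) (y : XX E t L) : XX E t L := ⟨y.1, g • y.2⟩

theorem chi_gX (g : L ≃ₐ[ℚ] L) (w : ∀ a, E (t a)) (y : XX E t L) :
    g (chi E t L w y) = chi E t L w (gX t g y) := rfl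

theorem lt_gX (g : L ≃ₐ[ℚ] L) (x : XX E t L) (i : ι) (φ : E i →+* L) :
    lt t (gX t g x) = ⟨i, φ⟩ ↔ lt t x = ⟨i, g⁻¹ • φ⟩ := by
  rcases x with ⟨a, ψ⟩
  constructor
  · intro h
    obtain ⟨h1, h2⟩ := Sigma.mk.inj_iff.1 h
    subst h1
    have h3 := eq_of_heq h2
    refine Sigma.mk.inj_iff.2 ⟨rfl, heq_of_eq ?_⟩
    rw [← h3]
    exact (inv_smul_smul g ψ).symm
  · intro h
    obtain ⟨h1, h2⟩ := Sigma.mk.inj_iff.1 h
    subst h1
    have h3 := eq_of_heq h2
    refine Sigma.mk.inj_iff.2 ⟨rfl, heq_of_eq ?_⟩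
    change g • ψ = φ
    have h4 : ψ = g⁻¹ • φ := h3
    rw [h4, smul_inv_smul]

open Classical in
theorem cnt_move (g : L ≃ₐ[ℚ] L) (τ : Perm (Fin k)) (I : Fin k → XX E t L) (i : ι)
    (φ : E i →+* L) :
    cnt t (fun l => gX t g (I (τ l))) ⟨i, φ⟩ = cnt t I ⟨i, g⁻¹ • φ⟩ := by
  rw [cnt_eq, cnt_eq]
  congr 1
  refine Finset.card_bij (fun l _ => τ l) ?_ ?_ ?_
  · intro l hl
    rw [Finset.mem_filter] at hl ⊢
    exact ⟨Finset.mem_univ _, (lt_gX t g _ i φ).1 hl.2⟩
  · intro l _ l' _ h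
    exact τ.injective h
  · intro l hl
    rw [Finset.mem_filter] at hl
    refine ⟨τ.symm l, ?_, τ.apply_symm_apply l⟩
    rw [Finset.mem_filter]
    refine ⟨Finset.mem_univ _, (lt_gX t g _ i φ).2 ?_⟩
    rw [τ.apply_symm_apply]
    exact hl.2

theorem dif_move (g : L ≃ₐ[ℚ] L) (τ : Perm (Fin k)) (I : Fin k → XX E t L) (i : ι)
    (φ : E i →+* L) :
    dif t (fun l => gX t g (I (τ l))) i φ = dif t I i (g⁻¹ • φ) := by
  rw [dif, dif, cnt_move, cnt_move]
  rfl

/-- The forms with balanced coefficients. -/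
def Bal (t : J → ι) (L : Type) [Field L] [NumberField L] [IsGalois ℚ L] (k : ℕ) :
    Submodule ℚ ((∀ a, E (t a)) [⋀^Fin k]→ₗ[ℚ] ℚ) where
  carrier := {f | ∃ c : (Fin k → XX E t L) → L,
    (∀ w : Fin k → ∀ a, E (t a), ((f w : ℚ) : L) = ∑ I, c I * ∏ l, chi E t L (w l) (I l)) ∧
    ∀ I : Fin k → XX E t L, c I ≠ 0 → ∀ i (φ : E i →+* L), dif t I i φ = 0}
  zero_mem' := by
    refine ⟨0, fun w => ?_, fun I hI => absurd rfl hI⟩
    simp
  add_mem' := by
    rintro f f' ⟨c, h1, h2⟩ ⟨c', h1', h2'⟩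
    refine ⟨c + c', fun w => ?_, fun I hI => ?_⟩
    · rw [AlternatingMap.add_apply, Rat.cast_add, h1, h1', ← Finset.sum_add_distrib]
      refine Finset.sum_congr rfl fun I _ => ?_
      rw [Pi.add_apply]
      ring
    · by_cases h : c I = 0
      · refine h2' I fun h' => hI ?_
        rw [Pi.add_apply, h, h', add_zero]
      · exact h2 I h
  smul_mem' := by
    rintro r f ⟨c, h1, h2⟩
    refine ⟨fun I => (r : L) * c I, fun w => ?_, fun I hI => h2 I fun h => hI ?_⟩
    · rw [AlternatingMap.smul_apply, smul_eq_mul, Rat.cast_mul, h1, Finset.mul_sum]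
      refine Finset.sum_congr rfl fun I _ => ?_
      ring
    · change (r : L) * c I = 0
      rw [h, mul_zero]

include hΦ in
theorem Bal_le : Bal (E := E) t L k ≤ divisorSpan (per Φ t) k := by
  rintro f ⟨c, h1, h2⟩
  exact mem_of_dif hΦ t f c h1 h2

/-- The monomial forms. -/
def mono (I : Fin j → XX E t L) : MultilinearMap ℚ (fun _ : Fin j => ∀ a, E (t a)) L :=
  (MultilinearMap.mkPiAlgebra ℚ (Fin j) L).compLinearMap fun l =>
    { toFun := fun w => chi E t L w (I l)
      map_add' := fun w w' => by simp [chi]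
      map_smul' := fun r w => by
        simp only [chi, Pi.smul_apply, RingHom.id_apply]
        rw [Rat.smul_def, map_mul, map_ratCast, Rat.smul_def] }

theorem mono_apply (I : Fin j → XX E t L) (y : Fin j → ∀ a, E (t a)) :
    mono t I y = ∏ l, chi E t L (y l) (I l) := by
  rw [mono, MultilinearMap.compLinearMap_apply, MultilinearMap.mkPiAlgebra_apply]
  rfl

/-- The rational form given by a monomial form and a number. -/
def ratForm (x : L) (I : Fin j → XX E t L) : (∀ a, E (t a)) [⋀^Fin j]→ₗ[ℚ] ℚ :=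
  MultilinearMap.alternatization
    (((Algebra.trace ℚ L).comp (LinearMap.mulLeft ℚ x)).compMultilinearMap (mono t I))

theorem ratForm_apply (x : L) (I : Fin j → XX E t L) (y : Fin j → ∀ a, E (t a)) :
    ratForm t x I y = ∑ τ : Perm (Fin j), (Perm.sign τ : ℤ) •
      Algebra.trace ℚ L (x * ∏ l, chi E t L (y (τ l)) (I l)) := by
  rw [ratForm, MultilinearMap.alternatization_apply]
  refine Finset.sum_congr rfl fun τ _ => ?_
  have h1 : (MultilinearMap.domDomCongr τ
      (((Algebra.trace ℚ L).comp (LinearMap.mulLeft ℚ x)).compMultilinearMap (mono t I))) y =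
      Algebra.trace ℚ L (x * mono t I (fun l => y (τ l))) := rfl
  rw [Units.smul_def, h1, mono_apply]

open Classical in
theorem ratForm_mem (x : L) (I : Fin j → XX E t L)
    (hI : ∀ i (φ : E i →+* L), dif t I i φ = 0) : ratForm t x I ∈ Bal (E := E) t L j := by
  let c : (Fin j → XX E t L) → L := fun I' => ∑ τ : Perm (Fin j), ∑ g : L ≃ₐ[ℚ] L,
    if I' = (fun l => gX t g (I (τ.symm l))) then ((Perm.sign τ : ℤ) : L) * g x else 0
  refine ⟨c, fun w => ?_, fun I' hI' => ?_⟩
  · rw [ratForm_apply, Rat.cast_sum]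
    have h1 : ∑ I', c I' * ∏ l, chi E t L (w l) (I' l) = ∑ τ : Perm (Fin j), ∑ g : L ≃ₐ[ℚ] L,
        ((Perm.sign τ : ℤ) : L) * g x * ∏ l, chi E t L (w l) (gX t g (I (τ.symm l))) := by
      simp only [c, Finset.sum_mul]
      rw [Finset.sum_comm]
      refine Finset.sum_congr rfl fun τ _ => ?_
      rw [Finset.sum_comm]
      refine Finset.sum_congr rfl fun g _ => ?_
      rw [Finset.sum_eq_single (fun l => gX t g (I (τ.symm l)))]
      · rw [if_pos rfl]
      · intro I' _ hne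
        rw [if_neg hne, zero_mul]
      · intro h
        exact absurd (Finset.mem_univ _) h
    rw [h1]
    refine Finset.sum_congr rfl fun τ _ => ?_
    have h2 : ((Algebra.trace ℚ L (x * ∏ l, chi E t L (w (τ l)) (I l)) : ℚ) : L) =
        ∑ g : L ≃ₐ[ℚ] L, g (x * ∏ l, chi E t L (w (τ l)) (I l)) := by
      have h3 := trace_eq_sum_automorphisms (K := ℚ) (x * ∏ l, chi E t L (w (τ l)) (I l))
      rw [← h3]
      rfl
    rw [zsmul_eq_mul, Rat.cast_mul, Rat.cast_intCast, h2, Finset.mul_sum]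
    refine Finset.sum_congr rfl fun g _ => ?_
    rw [map_mul, map_prod, mul_assoc]
    congr 2
    refine Fintype.prod_equiv τ _ _ fun l => ?_
    rw [τ.symm_apply_apply, chi_gX]
  · obtain ⟨τ, -, h1⟩ := Finset.exists_ne_zero_of_sum_ne_zero hI'
    obtain ⟨g, -, h2⟩ := Finset.exists_ne_zero_of_sum_ne_zero h1
    have h3 : I' = fun l => gX t g (I (τ.symm l)) := by
      by_contra h
      exact h2 (if_neg h)
    intro i φ
    rw [h3, dif_move t g τ.symm I i φ]
    exact hI i _

/-- The integral of the product of a form with an alternating sum. -/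
theorem wedge_alt {W : Type} [AddCommGroup W] [Module ℚ W] (f : W [⋀^Fin k]→ₗ[ℚ] ℚ)
    (Q : MultilinearMap ℚ (fun _ : Fin j => W) ℚ) (e : Fin k ⊕ Fin j → W) :
    wedgeW f (MultilinearMap.alternatization Q) e = (j.factorial : ℚ) *
      ∑ σ : Perm (Fin k ⊕ Fin j), ((Perm.sign σ : ℤ) : ℚ) *
        (f (fun l => e (σ (Sum.inl l))) * Q (fun l => e (σ (Sum.inr l)))) := by
  rw [wedgeW_apply]
  obtain ⟨S, hS⟩ : ∃ S : Perm (Fin j) → Perm (Fin k ⊕ Fin j),
      S = fun τ => Equiv.Perm.sumCongr (1 : Perm (Fin k)) τ := ⟨_, rfl⟩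
  have h1 : ∀ σ : Perm (Fin k ⊕ Fin j), (Perm.sign σ : ℤ) • (f (fun l => e (σ (Sum.inl l))) *
      MultilinearMap.alternatization Q (fun l => e (σ (Sum.inr l)))) =
      ∑ τ : Perm (Fin j), ((Perm.sign (σ * S τ) : ℤ) : ℚ) *
        (f (fun l => e ((σ * S τ) (Sum.inl l))) *
          Q (fun l => e ((σ * S τ) (Sum.inr l)))) := by
    intro σ
    rw [MultilinearMap.alternatization_apply, Finset.mul_sum, Finset.smul_sum]
    refine Finset.sum_congr rfl fun τ _ => ?_
    have h4 : Perm.sign (S τ) = Perm.sign τ := by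
      rw [hS]
      change Perm.sign (Equiv.Perm.sumCongr (1 : Perm (Fin k)) τ) = _
      rw [Perm.sign_sumCongr, Perm.sign_one, one_mul]
    rw [Perm.sign_mul, h4, Units.smul_def, zsmul_eq_mul,
      zsmul_eq_mul, Units.val_mul, Int.cast_mul]
    have h2 : (MultilinearMap.domDomCongr τ Q) (fun l => e (σ (Sum.inr l))) =
        Q (fun l => e ((σ * S τ) (Sum.inr l))) := by rw [hS]; rfl
    have h3 : (fun l => e ((σ * S τ) (Sum.inl l))) =
        fun l => e (σ (Sum.inl l)) := by rw [hS]; rfl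
    rw [h2, h3]
    ring
  rw [Finset.sum_congr rfl fun σ _ => h1 σ, Finset.sum_comm]
  have h2 : ∀ τ : Perm (Fin j), ∑ σ : Perm (Fin k ⊕ Fin j),
      ((Perm.sign (σ * S τ) : ℤ) : ℚ) *
        (f (fun l => e ((σ * S τ) (Sum.inl l))) *
          Q (fun l => e ((σ * S τ) (Sum.inr l)))) =
      ∑ σ : Perm (Fin k ⊕ Fin j), ((Perm.sign σ : ℤ) : ℚ) *
        (f (fun l => e (σ (Sum.inl l))) * Q (fun l => e (σ (Sum.inr l)))) := by
    intro τ
    exact Equiv.sum_comp (Equiv.mulRight (S τ)) fun σ : Perm (Fin k ⊕ Fin j) =>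
      ((Perm.sign σ : ℤ) : ℚ) * (f (fun l => e (σ (Sum.inl l))) * Q (fun l => e (σ (Sum.inr l))))
  rw [Finset.sum_congr rfl fun τ _ => h2 τ, Finset.sum_const, Finset.card_univ,
    Fintype.card_perm, Fintype.card_fin, nsmul_eq_mul]

end

end Pool.Agent.Q64.HC
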