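import Mathlib
import Pool.Agent.Y1.KN.All
import Pool.Agent.Y1.KN.Use
import Pool.Agent.Y1.HZ.Main

/-!
# The number of the exceptional families of CM types
-/

set_option autoImplicit false

namespace Pool.Agent.Q64.HC

open NumberField Module Finset Pool.Agent.H204R3.CM Pool.Agent.H977R3.CM Pool.Agent.Y1.KN
  Pool.Agent.Y1.HZ Pool.Agent.TH170.CM

/-- **The number of the exceptional families of CM types**, explicit bound. -/
theorem count :
    ∃ C : ℝ, 0 ≤ C ∧ ∀ (ι : Type) [Fintype ι] (E : ι → Type) [∀ i, Field (E i)]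
      [∀ i, NumberField (E i)] [∀ i, IsCMField (E i)] (g p : ι → ℕ) (D : ι → ℝ),
      PairwiseIndep E → (∀ i, finrank ℚ (E i) = 2 * g i) →
      (∀ i, p i ∣ g i ∧ (p i = 1 ∨ (p i).Prime)) → (∀ i, 1 ≤ D i) →
      (∀ (i : ι) (F : IntermediateField ℚ (E i)), IsCMField F → IsGalois ℚ F →
        ¬ IsAbelianGalois ℚ F → (finrank ℚ F : ℝ) ≤ D i) →
      ∀ P : (∀ i, Set (E i →+* ℂ)) → Prop,
      (∀ Φ, (∀ i, IsCMType (Φ i)) → (∀ i, ¬ Degenerate (Φ i)) → P Φ) →
      (({Φ : ∀ i, Set (E i →+* ℂ) | (∀ i, IsCMType (Φ i)) ∧ ¬ P Φ}.ncard : ℕ) : ℝ) ≤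
        2 ^ (∑ i, g i) * ∑ i, C * ((1 + Real.log (2 * g i)) ^ 16 *
          min ((numCMSubfields (E i) : ℝ) ^ 2 * D i ^ (1 / 4 : ℝ) / √(g i))
            (√(g i) / p i)) := by
  obtain ⟨C, hC0, hC⟩ := families_holds
  refine ⟨C, hC0, ?_⟩
  intro ι _ E _ _ _ g p D hE hg hp hD hDF P hP
  have h1 := hC ι E (fun _ _ => 1) (fun _ => 1) g p (fun _ _ => rfl) (fun _ => one_ne_zero)
    (fun _ _ => one_dvd _) hg hp (fun Φ => P Φ) (by
      intro Φ hΦ hnd
      exact hP Φ hΦ fun i => not_degenerate (hΦ i) (hnd i))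
  simp only [Nat.cast_one, one_pow, mul_one] at h1
  refine h1.trans ?_
  refine mul_le_mul_of_nonneg_left ?_ (by positivity)
  refine Finset.sum_le_sum fun i _ => ?_
  refine mul_le_mul_of_nonneg_left ?_ hC0
  unfold rate
  have hgi : (1 : ℝ) ≤ 2 * g i := by
    have h1 : 0 < finrank ℚ (E i) := finrank_pos
    rw [hg i] at h1
    have h2 : 1 ≤ 2 * g i := h1
    exact_mod_cast h2
  have hlog : 0 ≤ Real.log (2 * (g i : ℝ)) := Real.log_nonneg hgi
  refine mul_le_mul_of_nonneg_left ?_ (by positivity)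
  refine min_le_min_right _ ?_
  exact div_le_div_of_nonneg_right (weight_estimate_holds (E i) (D i) (hD i) (hDF i))
    (Real.sqrt_nonneg _)

end Pool.Agent.Q64.HC
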