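import Mathlib
import Pool.Agent.Y1.HZ.Defs

/-!
# Products of abelian varieties and noncommutative varieties: definitions
-/

set_option autoImplicit false

namespace Pool.Agent.Q64.HC

open Pool.Agent.H204R3.CM Pool.Agent.TH131.GHC Pool.Agent.TH504.VY Pool.Agent.TH504.CB
  Pool.Agent.Y1.HZ

section

variable {W T : Type} [AddCommGroup W] [Module ℚ W] [AddCommGroup T] [Module ℂ T] (per : W →+ T)
  {v : ℕ}

/-- The exterior product of a combination of products of divisor classes on `A` and a class in `algC`
is in `alg`. -/
def ProductClosed (alg : Submodule ℚ (HAZ W v)) (algC : Submodule ℚ (Fin v → ℚ)) : Prop :=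
  ∀ (k : ℕ), ∀ f ∈ divisorSpan per k, ∀ x ∈ algC, cross f x ∈ alg

/-- The restriction of a class in `alg` to a point of `A` is in `algC`. -/
def RestrictClosed (alg : Submodule ℚ (HAZ W v)) (algC : Submodule ℚ (Fin v → ℚ)) : Prop :=
  ∀ F ∈ alg, F 0 (fun l => l.elim0) ∈ algC

/-- The span `algC` of the classes of the objects of an admissible subcategory `C` in
`K^top (C) ⊗ ℚ = ℚ ^ v`, and the span `alg` of the classes of the objects of `perf (A) ⊠ C` in
`K^top (perf (A) ⊠ C) ⊗ ℚ = H (A) ⊗ (K^top (C) ⊗ ℚ)`, with two properties: a product of divisor
classes on `A` is a combination of Chern characters of vector bundles, and the exterior product of a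
vector bundle on `A` and an object of `C` is an object of `perf (A) ⊠ C`; the objects of
`perf (A) ⊠ C` can be restricted to a point of `A`. -/
structure ObjectClasses (v : ℕ) where
  /-- the classes of the objects of `perf (A) ⊠ C` -/
  alg : Submodule ℚ (HAZ W v)
  /-- the classes of the objects of `C` -/
  algC : Submodule ℚ (Fin v → ℚ)
  product : ProductClosed per alg algC
  restrict : RestrictClosed alg algC

variable {per} (V : Coh v)

/-- The noncommutative Hodge conjecture for `C`: all rational Hodge classes are combinations of
classes of objects. -/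
def NCHodge (O : ObjectClasses per v) : Prop := ∀ x, IsHodgeOn V x → x ∈ O.algC

/-- The noncommutative Hodge conjecture for `perf (A) ⊠ C`. -/
def NCHodgeTimes (O : ObjectClasses per v) : Prop := ∀ F, IsHodgeOnProduct per V F → F ∈ O.alg

/-- The noncommutative Hodge conjecture for an admissible subcategory of `perf (A) ⊠ C`; `P` is the
operation of the projection functor. -/
def NCHodgeComponent (O : ObjectClasses per v) (P : HAZ W v →ₗ[ℚ] HAZ W v) : Prop :=
  ∀ F, P F = F → IsHodgeOnProduct per V F → F ∈ O.alg.map P

variable (per)

/-- All Hodge classes of `perf (A) ⊠ C` are sums of products `f ⊗ x` of a combination `f` of products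
of divisor classes on `A` and of a Hodge class `x` of `C`. -/
def HodgeClassesSplit : Prop := ∀ F, IsHodgeOnProduct per V F → F ∈ crossSpan per V

/-- The noncommutative Hodge conjecture for `perf (A) ⊠ C` is equivalent to the noncommutative Hodge
conjecture for `C`, and it then holds for all admissible subcategories of `perf (A) ⊠ C`. -/
def NCHodgeReduces : Prop :=
  ∀ O : ObjectClasses per v, (NCHodgeTimes V O ↔ NCHodge V O) ∧
    (NCHodge V O → ∀ P, NCHodgeComponent V O P)

end

/-- On the products `perf (A) ⊠ C` of the products `A` of copies of the abelian varieties of CM type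
`(E i, Φ i)` and of all admissible subcategories `C` unrelated to the fields `E i`, with the Hodge
structure `V` on `K^top (C) ⊗ ℚ`: all Hodge classes are sums of products `f ⊗ x` of a combination `f`
of products of divisor classes on `A` and of a Hodge class `x` of `C`; the noncommutative Hodge
conjecture for `perf (A) ⊠ C` is equivalent to the noncommutative Hodge conjecture for `C`; and it
then holds for all admissible subcategories of `perf (A) ⊠ C`. -/
def NoncommutativeTimes {ι : Type} {E : ι → Type} [∀ i, Field (E i)]
    (Φ : ∀ i, Set (E i →+* ℂ)) [∀ i, NumberField (E i)] : Prop :=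
  ∀ (J : Type) [Fintype J] (t : J → ι) (v : ℕ) (V : Coh v), (∀ i, UnrelatedHodge V (E i)) →
    HodgeClassesSplit (per Φ t) V ∧ NCHodgeReduces (per Φ t) V

end Pool.Agent.Q64.HC
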