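import Mathlib
import Pool.Agent.Q64.HC.Bal

/-!
# The duality of the balanced forms
-/

set_option autoImplicit false
set_option linter.unusedSectionVars false
set_option linter.unusedVariables false

namespace Pool.Agent.Q64.HC

open Matrix NumberField Module Equiv Pool.Agent.H204R3.CM Pool.Agent.TH131.GHC
  Pool.Agent.H977R3.CM Pool.Agent.TH504.VY Pool.Agent.TH504.CB Pool.Agent.TH170.CM
  Pool.Agent.Y1.HZ

noncomputable section

variable {ι J : Type} [Fintype ι] [Fintype J] {E : ι → Type} [∀ i, Field (E i)]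
  [∀ i, NumberField (E i)] [∀ i, IsCMField (E i)]
  {L : Type} [Field L] [NumberField L] [IsGalois ℚ L]
  {Φ : ∀ i, Set (E i →+* ℂ)} (hΦ : ∀ i, IsCMType (Φ i)) (t : J → ι) (j₀ : L →+* ℂ)
  {v k j : ℕ}

open Classical in
theorem card_XX (h : ∀ i, ∀ ψ : E i →+* ℂ, ∃ φ : E i →+* L, j₀.comp φ = ψ) :
    Fintype.card (XX E t L) = finrank ℚ (∀ a, E (t a)) := by
  rw [Module.finrank_pi_fintype, Fintype.card_sigma]
  refine Finset.sum_congr rfl fun a _ => ?_
  rw [Fintype.card_congr (embEquiv j₀ (h (t a))), NumberField.Embeddings.card]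

/-- For every nonzero balanced form there is a balanced form of complementary degree such that the
integral of the product is not zero. -/
theorem exists_dual_bal (h : ∀ i, ∀ ψ : E i →+* ℂ, ∃ φ : E i →+* L, j₀.comp φ = ψ)
    (e : Basis (Fin k ⊕ Fin j) ℚ (∀ a, E (t a))) {f : (∀ a, E (t a)) [⋀^Fin k]→ₗ[ℚ] ℚ}
    (hf : f ∈ Bal (E := E) t L k) (h0 : f ≠ 0) :
    ∃ β ∈ Bal (E := E) t L j, wedgeW f β e ≠ 0 := by
  classical
  obtain ⟨x, hx⟩ : ∃ x, f x ≠ 0 := by
    by_contra hcon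
    push Not at hcon
    exact h0 (AlternatingMap.ext hcon)
  have hw : wedgeW f (slot e.det x) e ≠ 0 := by
    rw [wedge_slot]
    exact mul_ne_zero (mul_ne_zero (Nat.cast_ne_zero.2 (Nat.factorial_ne_zero _))
      (Nat.cast_ne_zero.2 (Nat.factorial_ne_zero _))) hx
  obtain ⟨c0, hc0⟩ := form_coeff t j₀ h (slot e.det x).toMultilinearMap
  let P : (Fin j → XX E t L) → L := fun I => ∑ σ : Perm (Fin k ⊕ Fin j),
    ((Perm.sign σ : ℤ) : L) * (((f (fun l => e (σ (Sum.inl l))) : ℚ) : L) *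
      ∏ l, chi E t L (e (σ (Sum.inr l))) (I l))
  have h1 : ((wedgeW f (slot e.det x) e : ℚ) : L) = ∑ I, c0 I * P I := by
    rw [wedgeW_apply, Rat.cast_sum]
    simp only [P, Finset.mul_sum]
    rw [Finset.sum_comm]
    refine Finset.sum_congr rfl fun σ _ => ?_
    have h2 : (((slot e.det x) (fun l => e (σ (Sum.inr l))) : ℚ) : L) =
        ∑ I : Fin j → XX E t L, c0 I * ∏ l, chi E t L (e (σ (Sum.inr l))) (I l) := hc0 _
    rw [zsmul_eq_mul, Rat.cast_mul, Rat.cast_intCast, Rat.cast_mul, h2, Finset.mul_sum,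
      Finset.mul_sum]
    refine Finset.sum_congr rfl fun I _ => ?_
    ring
  obtain ⟨I, hI⟩ : ∃ I, P I ≠ 0 := by
    by_contra hcon
    push Not at hcon
    rw [Finset.sum_eq_zero fun I _ => by rw [hcon I, mul_zero]] at h1
    exact hw (by exact_mod_cast h1)
  obtain ⟨c, hc, hbal⟩ := hf
  have h2 : P I = ∑ I' : Fin k → XX E t L, c I' *
      (Matrix.of fun a y => chi E t L (e a) (Sum.elim I' I y)).det := by
    simp only [P, Matrix.det_apply', Finset.mul_sum]
    rw [Finset.sum_comm]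
    refine Finset.sum_congr rfl fun σ _ => ?_
    rw [hc, Finset.sum_mul, Finset.mul_sum]
    refine Finset.sum_congr rfl fun I' _ => ?_
    rw [Fintype.prod_sum_type]
    simp only [Matrix.of_apply, Sum.elim_inl, Sum.elim_inr]
    ring
  obtain ⟨I', -, hI'⟩ := Finset.exists_ne_zero_of_sum_ne_zero (h2 ▸ hI)
  have hcI' : c I' ≠ 0 := fun h3 => hI' (by rw [h3, zero_mul])
  have hdet : (Matrix.of fun a y => chi E t L (e a) (Sum.elim I' I y)).det ≠ 0 :=
    fun h3 => hI' (by rw [h3, mul_zero])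
  have hinj : Function.Injective (Sum.elim I' I) := by
    intro y y' hyy
    by_contra hne
    refine hdet (Matrix.det_zero_of_column_eq hne fun a => ?_)
    simp only [Matrix.of_apply, hyy]
  have hcard : Fintype.card (Fin k ⊕ Fin j) = Fintype.card (XX E t L) := by
    rw [card_XX t j₀ h, finrank_eq_card_basis e]
  have hbij : Function.Bijective (Sum.elim I' I) :=
    (Fintype.bijective_iff_injective_and_card _).2 ⟨hinj, hcard⟩
  have hIbal : ∀ i (φ : E i →+* L), dif t I i φ = 0 := by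
    intro i φ
    rw [dif_compl t I' I hbij i φ, hbal I' hcI' i φ, neg_zero]
  refine ⟨ratForm t (P I)⁻¹ I, ratForm_mem t _ I hIbal, ?_⟩
  rw [ratForm, wedge_alt]
  have h3 : ∑ σ : Perm (Fin k ⊕ Fin j), ((Perm.sign σ : ℤ) : ℚ) *
      (f (fun l => e (σ (Sum.inl l))) *
        (((Algebra.trace ℚ L).comp (LinearMap.mulLeft ℚ (P I)⁻¹)).compMultilinearMap (mono t I))
          (fun l => e (σ (Sum.inr l)))) = Algebra.trace ℚ L ((P I)⁻¹ * P I) := by
    simp only [P, Finset.mul_sum, map_sum]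
    refine Finset.sum_congr rfl fun σ _ => ?_
    have h4 : (((Algebra.trace ℚ L).comp (LinearMap.mulLeft ℚ (P I)⁻¹)).compMultilinearMap
        (mono t I)) (fun l => e (σ (Sum.inr l))) =
        Algebra.trace ℚ L ((P I)⁻¹ * ∏ l, chi E t L (e (σ (Sum.inr l))) (I l)) := by
      rw [← mono_apply]
      rfl
    have h5 : (P I)⁻¹ * (((Perm.sign σ : ℤ) : L) * (((f (fun l => e (σ (Sum.inl l))) : ℚ) : L) *
        ∏ l, chi E t L (e (σ (Sum.inr l))) (I l))) =
        (((Perm.sign σ : ℤ) : ℚ) * f (fun l => e (σ (Sum.inl l)))) •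
          ((P I)⁻¹ * ∏ l, chi E t L (e (σ (Sum.inr l))) (I l)) := by
      rw [Rat.smul_def, Rat.cast_mul, Rat.cast_intCast]
      ring
    have h6 := congrArg (Algebra.trace ℚ L) h5
    rw [map_smul, smul_eq_mul] at h6
    refine Eq.trans ?_ h6.symm
    rw [h4]
    ring
  have h7 : Algebra.trace ℚ L (1 : L) = (finrank ℚ L : ℚ) := by
    have h8 := Algebra.trace_algebraMap (R := ℚ) (S := L) 1
    rw [map_one, nsmul_eq_mul, mul_one] at h8
    exact h8
  rw [h3, inv_mul_cancel₀ hI, h7]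
  exact mul_ne_zero (Nat.cast_ne_zero.2 (Nat.factorial_ne_zero _))
    (Nat.cast_ne_zero.2 finrank_pos.ne')

end

end Pool.Agent.Q64.HC
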