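import Mathlib
import Pool.Agent.Y1.HZ.Defs

/-!
# Families of varieties and constant abelian varieties: definitions
-/

set_option autoImplicit false

namespace Pool.Agent.Q64.HC

open NumberField Pool.Agent.H204R3.CM Pool.Agent.TH131.GHC Pool.Agent.TH504.VY
  Pool.Agent.TH504.CB Pool.Agent.Y1.HZ

/-- The family `Y` over `B` is unrelated to the field `E`: for all vectors `w ≠ 0` such that for all
fibres `Y b` and all automorphisms `σ` of the complex numbers the conjugate `σ w` is of types `(p, q)`
with `p - q = d σ` in the cohomology of `Y b`, a function `n` on the complex embeddings of `E` with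
`n (conj φ) = - n φ` which is invariant under all automorphisms `τ` with `d (σ ∘ τ) = d σ` for all
`σ` is zero. This is so if one fibre is unrelated to `E`. -/
def UnrelatedFamily {B : Type} {v : ℕ} (Y : B → Coh v) (E : Type) [Field E] : Prop :=
  ∀ (w : Fin v → ℂ) (d : (ℂ ≃+* ℂ) → ℤ), w ≠ 0 → (∀ b, HasTypes (Y b) w d) →
    ∀ n : (E →+* ℂ) → ℚ, (∀ φ, n (ComplexEmbedding.conjugate φ) = - n φ) →
      (∀ τ : ℂ ≃+* ℂ, (∀ σ, d (τ.trans σ) = d σ) →
        ∀ φ : E →+* ℂ, n ((τ : ℂ →+* ℂ).comp φ) = n φ) → n = 0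

end Pool.Agent.Q64.HC
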