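import Mathlib
import Pool.Agent.Q64.HC.Defs
import Pool.Agent.Q64.HC.Count

/-!
# Products of abelian varieties and noncommutative varieties: proofs
-/

set_option autoImplicit false

namespace Pool.Agent.Q64.HC

open Matrix NumberField Pool.Agent.H204R3.CM Pool.Agent.H977R3.CM Pool.Agent.TH131.GHC
  Pool.Agent.TH504.VY Pool.Agent.TH504.CB Pool.Agent.Y1.HZ Pool.Agent.TH170.CM

section

variable {W T : Type} [AddCommGroup W] [Module ℚ W] [AddCommGroup T] [Module ℂ T] {per : W →+ T}
  {v : ℕ} {V : Coh v}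

/-- The form of degree zero with value one. -/
noncomputable def oneForm (W : Type) [AddCommGroup W] [Module ℚ W] : W [⋀^Fin 0]→ₗ[ℚ] ℚ :=
  AlternatingMap.constOfIsEmpty ℚ W (Fin 0) 1

theorem cross_one_apply (x : Fin v → ℚ) (w : Fin 0 → W) : cross (oneForm W) x 0 w = x := by
  rw [cross, Pi.single_eq_same, LinearMap.compAlternatingMap_apply, oneForm,
    AlternatingMap.constOfIsEmpty_apply, LinearMap.toSpanSingleton_apply]
  exact one_smul ℚ x

theorem isHodge_cross_one {x : Fin v → ℚ} (hx : IsHodgeOn V x) :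
    IsHodgeOnProduct per V (cross (oneForm W) x) := by
  refine ⟨Pi.single 0 (AlternatingMap.constOfIsEmpty ℝ T (Fin 0) (cv x)), ?_, ?_⟩
  · intro k w
    rcases Nat.eq_zero_or_pos k with rfl | hk
    · rw [Pi.single_eq_same, AlternatingMap.constOfIsEmpty_apply, cross_one_apply]
      rfl
    · rw [Pi.single_eq_of_ne hk.ne', cross, Pi.single_eq_of_ne hk.ne']
      funext b
      simp [cv]
  · intro k u
    rcases Nat.eq_zero_or_pos k with rfl | hk
    · rw [Pi.single_eq_same, AlternatingMap.constOfIsEmpty_apply]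
      have h1 : V.z *ᵥ cv x = 0 := hx
      simp only [Finset.univ_eq_empty, Finset.sum_empty, smul_zero, Int.cast_zero, zero_smul,
        zero_add]
      exact h1
    · rw [Pi.single_eq_of_ne hk.ne']
      simp

theorem times_iff (h : ∀ F, IsHodgeOnProduct per V F → F ∈ crossSpan per V)
    (O : ObjectClasses per v) : NCHodgeTimes V O ↔ NCHodge V O := by
  constructor
  · intro h1 x hx
    have h2 := O.restrict _ (h1 _ (isHodge_cross_one (per := per) hx))
    rwa [cross_one_apply] at h2
  · intro h1 F hF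
    have h2 : crossSpan per V ≤ O.alg := by
      refine Submodule.span_le.2 ?_
      rintro _ ⟨k, f, x, hf, hx, rfl⟩
      exact O.product k f hf x (h1 x hx)
    exact h2 (h F hF)

theorem noncommutativeTimes {ι : Type} [Fintype ι] {E : ι → Type} [∀ i, Field (E i)]
    [∀ i, NumberField (E i)] [∀ i, IsCMField (E i)] {Φ : ∀ i, Set (E i →+* ℂ)}
    (hΦ : ∀ i, IsCMType (Φ i)) (hind : PairwiseIndep E) (hnd : ∀ i, ¬ Degenerate (Φ i)) :
    NoncommutativeTimes Φ := by
  intro J _ t v V hun
  have h1 := hodgeTimes_of_not_degenerate hΦ hind hnd J t v V hun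
  refine ⟨h1, fun O => ⟨times_iff h1 O, fun hO P F hP hF => ?_⟩⟩
  exact ⟨F, (times_iff h1 O).2 hO F hF, hP⟩

end

end Pool.Agent.Q64.HC
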