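import Mathlib
import Pool.Agent.Q64.HC.Dual
import Pool.Agent.Q64.HC.FDefs
import Pool.Agent.Q64.HC.Thms

/-!
# Families of varieties and abelian varieties with complex multiplication
-/

set_option autoImplicit false
set_option linter.unusedSectionVars false
set_option linter.unusedVariables false

namespace Pool.Agent.Q64.HC

open Matrix NumberField Module Equiv Pool.Agent.H204R3.CM Pool.Agent.TH131.GHC
  Pool.Agent.H977R3.CM Pool.Agent.TH504.VY Pool.Agent.TH504.CB Pool.Agent.TH170.CM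
  Pool.Agent.Y1.HZ Pool.Agent.W546.GHC

noncomputable section

section general

variable {W : Type} [AddCommGroup W] [Module ℚ W] {v : ℕ}

/-- Reproduction of a class from its integrals. -/
theorem reproduce' (H : ∀ k, Submodule ℚ (W [⋀^Fin k]→ₗ[ℚ] ℚ)) {k j : ℕ}
    (e : Basis (Fin k ⊕ Fin j) ℚ W)
    (hdual : ∀ f ∈ H k, f ≠ 0 → ∃ β ∈ H j, wedgeW f β e ≠ 0) (F : HAZ W v)
    (hF : ∀ b, cmp b (F k) ∈ H k) {P : Submodule ℚ (HAZ W v)}
    (hP : ∀ f ∈ H k, ∀ β ∈ H j, cross f (fibreIntegral e F β) ∈ P) :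
    (Pi.single k (F k) : HAZ W v) ∈ P := by
  classical
  have hfin : FiniteDimensional ℚ (H k) := by
    let T : H k →ₗ[ℚ] ((Fin k → Fin k ⊕ Fin j) → ℚ) :=
      { toFun := fun f I => f.1 fun l => e (I l)
        map_add' := fun f f' => rfl
        map_smul' := fun r f => rfl }
    refine FiniteDimensional.of_injective T fun f f' hff => ?_
    apply Subtype.ext
    apply AlternatingMap.coe_multilinearMap_injective
    refine Basis.ext_multilinear (fun _ => e) fun I => ?_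
    exact congrFun hff I
  let Bp : H j →ₗ[ℚ] H k →ₗ[ℚ] ℚ := LinearMap.mk₂ ℚ
    (fun β f => wedgeW f.1 β.1 e)
    (fun β β' f => wedgeW_add_right _ _ _ _)
    (fun r β f => wedgeW_smul_right _ _ _ _)
    (fun β f f' => wedgeW_add_left _ _ _ _)
    (fun r β f => wedgeW_smul_left _ _ _ _)
  have hinj : Function.Injective Bp.flip := by
    rw [injective_iff_map_eq_zero]
    intro f hf
    by_contra h0
    obtain ⟨β, hβ, hne⟩ := hdual f.1 f.2 (fun h1 => h0 (Subtype.ext h1))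
    apply hne
    have h1 := congrArg (fun G => G ⟨β, hβ⟩) hf
    exact h1
  have hsurj : Function.Surjective Bp := LinearMap.flip_injective_iff₂.1 hinj
  let φ := finBasis ℚ (H k)
  choose β hβ using fun i => hsurj (φ.coord i)
  have key : (Pi.single k (F k) : HAZ W v) = ∑ i, cross (φ i).1 (fibreIntegral e F (β i).1) := by
    have h1 : ∀ i, cross (φ i).1 (fibreIntegral e F (β i).1) = (Pi.single k
        ((LinearMap.toSpanSingleton ℚ (Fin v → ℚ)
          (fibreIntegral e F (β i).1)).compAlternatingMap (φ i).1) : HAZ W v) := fun i => rfl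
    rw [Finset.sum_congr rfl (fun i _ => h1 i)]
    have h2 : F k = ∑ i, (LinearMap.toSpanSingleton ℚ (Fin v → ℚ)
          (fibreIntegral e F (β i).1)).compAlternatingMap (φ i).1 := by
      refine AlternatingMap.ext fun w => ?_
      funext b
      have h3 : ∀ i, φ.coord i ⟨cmp b (F k), hF b⟩ = fibreIntegral e F (β i).1 b := by
        intro i
        rw [← hβ i, fibreIntegral_apply]
        rfl
      have h4 := φ.sum_repr ⟨cmp b (F k), hF b⟩
      have h5 := congrArg (fun f : H k => f.1 w) h4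
      have h6 : (F k w) b = (cmp b (F k)) w := rfl
      rw [h6]
      refine h5.symm.trans ?_
      let ev : (W [⋀^Fin k]→ₗ[ℚ] (Fin v → ℚ)) →ₗ[ℚ] ℚ :=
        { toFun := fun G => G w b
          map_add' := fun G G' => rfl
          map_smul' := fun r G => rfl }
      let ev' : H k →ₗ[ℚ] ℚ :=
        { toFun := fun f => f.1 w
          map_add' := fun f f' => rfl
          map_smul' := fun r f => rfl }
      change ev' (∑ i, φ.repr ⟨cmp b (F k), hF b⟩ i • φ i) = ev _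
      rw [map_sum, map_sum]
      refine Finset.sum_congr rfl fun i _ => ?_
      rw [map_smul, smul_eq_mul]
      have h7 := h3 i
      rw [Basis.coord_apply] at h7
      rw [h7]
      change _ = (φ i).1 w * fibreIntegral e F (β i).1 b
      rw [mul_comm]
      rfl
    have h8 := congrArg (fun G => LinearMap.single ℚ
      (fun k : ℕ => W [⋀^Fin k]→ₗ[ℚ] (Fin v → ℚ)) k G) h2
    simp only [map_sum] at h8
    exact h8
  rw [key]
  exact Submodule.sum_mem _ fun i _ => hP _ (φ i).2 _ (β i).2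

end general

variable {ι J : Type} [Fintype ι] [Fintype J] {E : ι → Type} [∀ i, Field (E i)]
  [∀ i, NumberField (E i)] [∀ i, IsCMField (E i)]
  {L : Type} [Field L] [NumberField L] [IsGalois ℚ L]
  {Φ : ∀ i, Set (E i →+* ℂ)} (hΦ : ∀ i, IsCMType (Φ i)) (t : J → ι) (j₀ : L →+* ℂ)
  {v k : ℕ} {B : Type} [Nonempty B] (Y : B → Coh v)

open Classical in
include hΦ in
/-- The coefficients are balanced. -/
theorem dif_zero' (h : ∀ i, ∀ ψ : E i →+* ℂ, ∃ φ : E i →+* L, j₀.comp φ = ψ)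
    (hnd : Nondeg Φ j₀) (hun : ∀ i, UnrelatedFamily Y (E i))
    (c : Fin v → (Fin k → XX E t L) → L)
    (f : (∀ j, E (t j)) [⋀^Fin k]→ₗ[ℚ] (Fin v → ℚ)) (Ψ : Tan Φ t [⋀^Fin k]→ₗ[ℝ] (Fin v → ℂ))
    (hext : ∀ w : Fin k → ∀ j, E (t j), Ψ (fun l => per Φ t (w l)) = cv (f w))
    (htype : ∀ (b : B) (u : Fin k → Tan Φ t),
      (-Complex.I) • ∑ l, Ψ (Function.update u l (Complex.I • u l)) + (Y b).z *ᵥ Ψ u = 0)
    (hc : ∀ b (w : Fin k → ∀ j, E (t j)),
      ((f w b : ℚ) : L) = ∑ I : Fin k → XX E t L, c b I * ∏ l, chi E t L (w l) (I l))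
    (I : Fin k → XX E t L) (hI : ∃ b, c b I ≠ 0) (i : ι) (φ : E i →+* L) :
    dif t I i φ = 0 := by
  choose g hg using fun s : ℂ ≃+* ℂ => exists_gal j₀ s
  have hg1 : ∀ (s : ℂ ≃+* ℂ) (g' : L ≃ₐ[ℚ] L), (∀ x, s (j₀ x) = j₀ (g' x)) → g s = g' := by
    intro s g' hs
    ext x
    apply j₀.injective
    rw [← hg s x, hs x]
  have hmul : ∀ τ s : ℂ ≃+* ℂ, g (τ.trans s) = g s * g τ := by
    intro τ s
    refine hg1 _ _ fun x => ?_
    rw [RingEquiv.trans_apply, hg τ, hg s]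
    rfl
  let w : Fin v → ℂ := fun b => j₀ (c b I)
  let d : (ℂ ≃+* ℂ) → ℤ := fun s => - sgL Φ t j₀ I (g s)
  have hw : w ≠ 0 := by
    obtain ⟨b, hb⟩ := hI
    intro h0
    exact hb ((map_eq_zero j₀).1 (congrFun h0 b))
  have hty : ∀ b, HasTypes (Y b) w d := by
    intro b s
    have h1 := type_conj hΦ t j₀ (Y b) h c f Ψ hext (htype b) hc I (g s)
    have h2 : (fun b => s (w b)) = fun b => j₀ (g s (c b I)) := funext fun b => hg s (c b I)
    rw [h2, h1]
    simp only [d, Int.cast_neg]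
  let e : (E i →+* L) ≃ (E i →+* ℂ) := embEquiv j₀ (h i)
  have h1 := hun i w d hw hty (fun ψ => (dif t I i (e.symm ψ) : ℚ)) (by
    intro ψ
    obtain ⟨φ, rfl⟩ := e.surjective ψ
    have h2 : ComplexEmbedding.conjugate (e φ) = e (cbar φ) := (comp_cbar j₀ φ).symm
    rw [h2, Equiv.symm_apply_apply, Equiv.symm_apply_apply, dif_cbar, Int.cast_neg]) (by
    intro τ hτ ψ
    obtain ⟨φ, rfl⟩ := e.surjective ψ
    have h2 : (τ : ℂ →+* ℂ).comp (e φ) = e (g τ • φ) := by
      ext y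
      exact hg τ (φ y)
    rw [h2, Equiv.symm_apply_apply, Equiv.symm_apply_apply]
    congr 1
    refine dif_inv hΦ t j₀ hnd I (g τ) (fun σ => ?_) i φ
    obtain ⟨s, hs⟩ := exists_aut j₀ (σ : L ≃+* L)
    have h3 := hτ s
    have h4 : g s = σ := hg1 s σ hs
    simp only [d, hmul, h4] at h3
    linarith)
  have h2 := congrFun h1 (e φ)
  simp only [Equiv.symm_apply_apply, Pi.zero_apply, Int.cast_eq_zero] at h2
  exact h2

/-- The data of a flat class which is a Hodge class on all fibres, in one degree on `A`. -/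
structure FSit (Φ : ∀ i, Set (E i →+* ℂ)) (t : J → ι) (L : Type) [Field L] [NumberField L]
    (Y : B → Coh v) (f : (∀ j, E (t j)) [⋀^Fin k]→ₗ[ℚ] (Fin v → ℚ)) : Type where
  Ψ : Tan Φ t [⋀^Fin k]→ₗ[ℝ] (Fin v → ℂ)
  hext : ∀ w : Fin k → ∀ j, E (t j), Ψ (fun l => per Φ t (w l)) = cv (f w)
  htype : ∀ (b : B) (u : Fin k → Tan Φ t),
      (-Complex.I) • ∑ l, Ψ (Function.update u l (Complex.I • u l)) + (Y b).z *ᵥ Ψ u = 0
  c : Fin v → (Fin k → XX E t L) → L
  hc : ∀ b (w : Fin k → ∀ j, E (t j)),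
      ((f w b : ℚ) : L) = ∑ I : Fin k → XX E t L, c b I * ∏ l, chi E t L (w l) (I l)

include hΦ in
theorem exists_FSit (h : ∀ i, ∀ ψ : E i →+* ℂ, ∃ φ : E i →+* L, j₀.comp φ = ψ)
    {F : HAZ (∀ j, E (t j)) v} (hF : ∀ b, IsHodgeOnProduct (per Φ t) (Y b) F) (k : ℕ) :
    Nonempty (FSit Φ t L Y (F k)) := by
  choose Ψ hext htype using hF
  obtain ⟨b₀⟩ := ‹Nonempty B›
  have huniq : ∀ b, Ψ b k = Ψ b₀ k := by
    intro b
    apply AlternatingMap.coe_multilinearMap_injective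
    refine multilinear_ext_span _ _ _ (span_per t hΦ) ?_
    intro x hx
    choose w hw using hx
    have hv' : x = fun l => per Φ t (w l) := funext fun l => (hw l).symm
    rw [hv']
    exact (hext b k w).trans (hext b₀ k w).symm
  have h1 := fun b : Fin v => form_coeff t j₀ h
      (((LinearMap.proj b : (Fin v → ℚ) →ₗ[ℚ] ℚ).compAlternatingMap (F k)).toMultilinearMap)
  choose c hc using h1
  refine ⟨⟨Ψ b₀ k, hext b₀ k, fun b u => ?_, c, fun b w => hc b w⟩⟩
  rw [← huniq b, htype b k u, Int.cast_zero, zero_smul]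

variable {t} {Y}

include hΦ in
theorem FSit.value (h : ∀ i, ∀ ψ : E i →+* ℂ, ∃ φ : E i →+* L, j₀.comp φ = ψ)
    (hnd : Nondeg Φ j₀) (hun : ∀ i, UnrelatedFamily Y (E i))
    {f : (∀ j, E (t j)) [⋀^Fin k]→ₗ[ℚ] (Fin v → ℚ)} (S : FSit Φ t L Y f)
    (w : Fin k → ∀ j, E (t j)) (b₁ : B) : f w ∈ HY (Y b₁) := by
  classical
  change (Y b₁).z *ᵥ cv (f w) = 0
  have h1 : cv (f w) = ∑ I : Fin k → XX E t L, j₀ (∏ l, chi E t L (w l) (I l)) •
      fun b => j₀ (S.c b I) := by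
    funext b
    rw [Finset.sum_apply]
    have h2 := congrArg j₀ (S.hc b w)
    rw [map_ratCast, map_sum] at h2
    change ((f w b : ℚ) : ℂ) = _
    rw [h2]
    refine Finset.sum_congr rfl fun I _ => ?_
    rw [Pi.smul_apply, smul_eq_mul, map_mul, mul_comm]
  rw [h1, Matrix.mulVec_sum]
  refine Finset.sum_eq_zero fun I _ => ?_
  rw [Matrix.mulVec_smul]
  by_cases hI : ∃ b, S.c b I ≠ 0
  · have h2 := type_conj hΦ t j₀ (Y b₁) h S.c f S.Ψ S.hext (S.htype b₁) S.hc I 1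
    have h3 : sgL Φ t j₀ I 1 = 0 := by
      have h4 := sum_dif hΦ t j₀ I 1
      have h5 : ∀ i (φ : E i →+* L), dif t I i φ = 0 :=
        dif_zero' hΦ t j₀ Y h hnd hun S.c f S.Ψ S.hext S.htype S.hc I hI
      simp only [h5, zero_mul, Finset.sum_const_zero] at h4
      linarith
    rw [h3, Int.cast_zero, neg_zero, zero_smul] at h2
    have h4 : (fun b => j₀ (S.c b I)) = fun b => j₀ ((1 : L ≃ₐ[ℚ] L) (S.c b I)) := rfl
    rw [h4, h2, smul_zero]
  · push Not at hI
    have h2 : (fun b => j₀ (S.c b I)) = 0 := by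
      funext b
      rw [hI b, map_zero]
      rfl
    rw [h2, Matrix.mulVec_zero, smul_zero]

include hΦ in
theorem FSit.bal (h : ∀ i, ∀ ψ : E i →+* ℂ, ∃ φ : E i →+* L, j₀.comp φ = ψ)
    (hnd : Nondeg Φ j₀) (hun : ∀ i, UnrelatedFamily Y (E i))
    {f : (∀ j, E (t j)) [⋀^Fin k]→ₗ[ℚ] (Fin v → ℚ)} (S : FSit Φ t L Y f) (b : Fin v) :
    cmp b f ∈ Bal (E := E) t L k :=
  ⟨S.c b, fun w => S.hc b w, fun I hI =>
    dif_zero' hΦ t j₀ Y h hnd hun S.c f S.Ψ S.hext S.htype S.hc I ⟨b, hI⟩⟩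

include hΦ in
/-- **The reproducing property.** -/
theorem mem_of_bal (h : ∀ i, ∀ ψ : E i →+* ℂ, ∃ φ : E i →+* L, j₀.comp φ = ψ)
    (hnd : Nondeg Φ j₀) (hun : ∀ i, UnrelatedFamily Y (E i)) {F : HAZ (∀ j, E (t j)) v}
    (hF : ∀ b, IsHodgeOnProduct (per Φ t) (Y b) F) {P : Submodule ℚ (HAZ (∀ j, E (t j)) v)}
    (hP : ∀ (k j : ℕ) (e : Basis (Fin k ⊕ Fin j) ℚ (∀ j, E (t j)))
      (f : (∀ j, E (t j)) [⋀^Fin k]→ₗ[ℚ] ℚ) (β : (∀ j, E (t j)) [⋀^Fin j]→ₗ[ℚ] ℚ),
      f ∈ divisorSpan (per Φ t) k → β ∈ divisorSpan (per Φ t) j →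
        (∀ b, fibreIntegral e F β ∈ HY (Y b)) → cross f (fibreIntegral e F β) ∈ P) :
    F ∈ P := by
  classical
  obtain ⟨N, hN⟩ : ∃ N, N = finrank ℚ (∀ j, E (t j)) := ⟨_, rfl⟩
  have hbig : ∀ k, N < k → F k = 0 := by
    intro k hk
    refine AlternatingMap.ext fun w => ?_
    refine (F k).map_linearDependent w fun hw => ?_
    have h1 := hw.fintype_card_le_finrank
    rw [Fintype.card_fin, ← hN] at h1
    omega
  have hsum : F = ∑ k ∈ Finset.range (N + 1),
      (Pi.single k (F k) : HAZ (∀ j, E (t j)) v) := by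
    funext k
    rw [Finset.sum_apply]
    by_cases hk : k ∈ Finset.range (N + 1)
    · rw [Finset.sum_eq_single k]
      · rw [Pi.single_eq_same]
      · intro l _ hl
        exact Pi.single_eq_of_ne (Ne.symm hl) _
      · intro h0
        exact absurd hk h0
    · rw [Finset.sum_eq_zero]
      · refine hbig k ?_
        rw [Finset.mem_range] at hk
        omega
      · intro l hl
        refine Pi.single_eq_of_ne ?_ _
        rintro rfl
        exact hk hl
  rw [hsum]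
  refine Submodule.sum_mem _ fun k hk => ?_
  rw [Finset.mem_range] at hk
  have hq : Fintype.card (Fin N) = Fintype.card (Fin k ⊕ Fin (N - k)) := by
    rw [Fintype.card_sum, Fintype.card_fin, Fintype.card_fin, Fintype.card_fin]
    omega
  let e : Basis (Fin k ⊕ Fin (N - k)) ℚ (∀ j, E (t j)) :=
    (finBasisOfFinrankEq ℚ (∀ j, E (t j)) hN.symm).reindex (Fintype.equivOfCardEq hq)
  obtain ⟨S⟩ := exists_FSit hΦ t j₀ Y h hF k
  refine reproduce' (fun k => Bal (E := E) t L k) e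
    (fun f hf h0 => exists_dual_bal t j₀ h e hf h0) F
    (fun b => S.bal hΦ j₀ h hnd hun b) fun f hf β hβ => ?_
  refine hP k _ e f β (Bal_le hΦ t hf) (Bal_le hΦ t hβ) fun b => ?_
  unfold fibreIntegral
  refine Submodule.sum_mem _ fun σ _ => ?_
  have h1 : ∀ (z : ℤ) (x : Fin v → ℚ), x ∈ HY (Y b) → z • x ∈ HY (Y b) := fun z x hx =>
    zsmul_mem hx z
  exact h1 _ _ (Submodule.smul_mem _ _ (S.value hΦ j₀ h hnd hun _ b))

end

end Pool.Agent.Q64.HC
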