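import Mathlib
import Pool.Agent.Q64.HC.FDefs
import Pool.Agent.Y1.HZ.Defs

/-!
# The variational Hodge conjecture for products with constant abelian varieties: definitions
-/

set_option autoImplicit false

namespace Pool.Agent.Q64.HC

open NumberField Pool.Agent.H204R3.CM Pool.Agent.TH131.GHC Pool.Agent.TH504.VY
  Pool.Agent.TH504.CB Pool.Agent.Y1.HZ

/-- For all spans of classes of algebraic cycles with the properties in `CycleSystem`: the
variational Hodge conjecture for the family `Y` is equivalent to the variational Hodge conjecture
for the family of the products `A_b × Y_b`. -/
def VariationalIff {B W T : Type} [AddCommGroup W] [Module ℚ W] [AddCommGroup T] [Module ℂ T]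
    (per : B → W →+ T) {v : ℕ} (Y : B → Coh v) : Prop :=
  ∀ C : CycleSystem per v, Variational (fun b => IsHodgeOn (Y b)) C.algY ↔
    Variational (fun b => IsHodgeOnProduct (per b) (Y b)) C.alg

/-- `VariationalTimes Φ`: let `A` be any product of copies of the abelian varieties with complex
multiplication by the fields `E i` of the CM types `Φ i` (the copies have the indices `j`, and the
types `Φ (t j)`), and let `Y` be any family of varieties over `B` which is unrelated to the fields
`E i`. Then each flat class on `A × Y` which is a Hodge class on all fibres `A × Y_b` is a sum of
products of a combination of products of divisor classes on `A` and a flat class which is a Hodge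
class on all `Y_b`; and the variational Hodge conjecture for `Y` is equivalent to the one for
`A × Y`. -/
def VariationalTimes {ι : Type} {E : ι → Type} [∀ i, Field (E i)] [∀ i, NumberField (E i)]
    (Φ : ∀ i, Set (E i →+* ℂ)) : Prop :=
  ∀ (J : Type) [Fintype J] (t : J → ι) (v : ℕ) (B : Type) [Nonempty B] (Y : B → Coh v),
    (∀ i, UnrelatedFamily Y (E i)) →
      HodgeClassesAreProducts (fun _ : B => per Φ t) Y ∧ VariationalIff (fun _ : B => per Φ t) Y

end Pool.Agent.Q64.HC
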