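import Mathlib
import Pool.Agent.Q64.HC.Fam
import Pool.Agent.Q64.HC.VDefs

/-!
# The variational Hodge conjecture for products with constant abelian varieties
-/

set_option autoImplicit false
set_option linter.unusedSectionVars false
set_option linter.unusedVariables false

namespace Pool.Agent.Q64.HC

open Matrix NumberField Module Equiv Pool.Agent.H204R3.CM Pool.Agent.TH131.GHC
  Pool.Agent.H977R3.CM Pool.Agent.TH504.VY Pool.Agent.TH504.CB Pool.Agent.TH170.CM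
  Pool.Agent.Y1.HZ Pool.Agent.W546.GHC

noncomputable section

theorem integral_cross_one {W : Type} [AddCommGroup W] [Module ℚ W] {v j : ℕ}
    (e : Basis (Fin 0 ⊕ Fin j) ℚ W) (x : Fin v → ℚ) (β : W [⋀^Fin j]→ₗ[ℚ] ℚ) :
    fibreIntegral e (cross (oneForm W) x) β = wedgeW (oneForm W) β e • x := by
  unfold fibreIntegral
  rw [wedgeW_apply, Finset.sum_smul]
  refine Finset.sum_congr rfl fun σ _ => ?_
  rw [cross_one_apply, smul_assoc]
  congr 2
  have h1 : oneForm W (fun l => e (σ (Sum.inl l))) = 1 := rfl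
  rw [h1, one_mul]

section

variable {ι J : Type} [Fintype ι] [Fintype J] {E : ι → Type} [∀ i, Field (E i)]
  [∀ i, NumberField (E i)] [∀ i, IsCMField (E i)]
  {L : Type} [Field L] [NumberField L] [IsGalois ℚ L]
  {Φ : ∀ i, Set (E i →+* ℂ)} (hΦ : ∀ i, IsCMType (Φ i)) (t : J → ι) (j₀ : L →+* ℂ)

theorem oneForm_bal : oneForm (∀ a, E (t a)) ∈ Bal (E := E) t L 0 := by
  classical
  refine ⟨fun _ => 1, fun w => ?_, fun I _ i φ => ?_⟩
  · have h1 : oneForm (∀ a, E (t a)) w = 1 := rfl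
    rw [h1]
    simp
  · rw [dif, cnt_eq, cnt_eq]
    simp

include hΦ in
theorem exists_top (h : ∀ i, ∀ ψ : E i →+* ℂ, ∃ φ : E i →+* L, j₀.comp φ = ψ) :
    ∃ (N : ℕ) (e : Basis (Fin 0 ⊕ Fin N) ℚ (∀ a, E (t a)))
      (β : (∀ a, E (t a)) [⋀^Fin N]→ₗ[ℚ] ℚ), β ∈ divisorSpan (per Φ t) N ∧
        wedgeW (oneForm (∀ a, E (t a))) β e ≠ 0 := by
  classical
  obtain ⟨N, hN⟩ : ∃ N, N = finrank ℚ (∀ j, E (t j)) := ⟨_, rfl⟩
  have hq : Fintype.card (Fin N) = Fintype.card (Fin 0 ⊕ Fin N) := by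
    rw [Fintype.card_sum, Fintype.card_fin, Fintype.card_fin]
    omega
  let e : Basis (Fin 0 ⊕ Fin N) ℚ (∀ j, E (t j)) :=
    (finBasisOfFinrankEq ℚ (∀ j, E (t j)) hN.symm).reindex (Fintype.equivOfCardEq hq)
  have h0 : oneForm (∀ a, E (t a)) ≠ 0 := by
    intro h0
    have h1 := congrArg (fun G => G (fun l => (Fin.elim0 l : ∀ a, E (t a)))) h0
    have h2 : oneForm (∀ a, E (t a)) (fun l => (Fin.elim0 l : ∀ a, E (t a))) = 1 := rfl
    simp only [h2] at h1
    exact one_ne_zero h1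
  obtain ⟨β, hβ, hne⟩ := exists_dual_bal t j₀ h e (oneForm_bal (L := L) t) h0
  exact ⟨N, e, β, Bal_le hΦ t hβ, hne⟩

end

section

variable {ι J : Type} [Fintype ι] [Fintype J] {E : ι → Type} [∀ i, Field (E i)]
  [∀ i, NumberField (E i)] [∀ i, IsCMField (E i)]
  {L : Type} [Field L] [NumberField L] [IsGalois ℚ L]
  {Φ : ∀ i, Set (E i →+* ℂ)} (hΦ : ∀ i, IsCMType (Φ i)) {t : J → ι} (j₀ : L →+* ℂ)
  {v : ℕ} {B : Type} [Nonempty B] {Y : B → Coh v}

include hΦ in
theorem products_and_iff (h : ∀ i, ∀ ψ : E i →+* ℂ, ∃ φ : E i →+* L, j₀.comp φ = ψ)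
    (hnd : Nondeg Φ j₀) (hun : ∀ i, UnrelatedFamily Y (E i)) :
    HodgeClassesAreProducts (fun _ : B => per Φ t) Y ∧
      VariationalIff (fun _ : B => per Φ t) Y := by
  refine ⟨fun F hF => ?_, fun C => ⟨fun hC F hF b₀ hb₀ b => ?_, fun hC x hx b₀ hb₀ b => ?_⟩⟩
  · exact mem_of_bal hΦ j₀ h hnd hun hF fun k j e f β hf hβ hY =>
      Submodule.subset_span ⟨k, f, _, fun _ => hf, hY, rfl⟩
  · refine mem_of_bal hΦ j₀ h hnd hun hF fun k j e f β hf hβ hY => ?_
    refine C.cross_mem b k f hf _ ?_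
    refine hC _ hY b₀ ?_ b
    exact C.integral_mem b₀ F hb₀ k j e β hβ
  · have hone : oneForm (∀ a, E (t a)) ∈ divisorSpan (per Φ t) 0 :=
      Bal_le hΦ t (oneForm_bal (L := L) t)
    have h1 := hC (cross (oneForm (∀ a, E (t a))) x) (fun b => isHodge_cross_one (hx b)) b₀
      (C.cross_mem b₀ 0 _ hone x hb₀) b
    obtain ⟨N, e, β, hβ, hne⟩ := exists_top hΦ t j₀ h
    have h2 := C.integral_mem b _ h1 0 N e β hβ
    rw [integral_cross_one] at h2
    have h3 := Submodule.smul_mem _ (wedgeW (oneForm (∀ a, E (t a))) β e)⁻¹ h2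
    rwa [smul_smul, inv_mul_cancel₀ hne, one_smul] at h3

end

/-- The variational Hodge conjecture for products with abelian varieties with nondegenerate CM types,
for independent fields. -/
theorem variationalTimes {ι : Type} [Fintype ι] {E : ι → Type} [∀ i, Field (E i)]
    [∀ i, NumberField (E i)] [∀ i, IsCMField (E i)] {Φ : ∀ i, Set (E i →+* ℂ)}
    (hΦ : ∀ i, IsCMType (Φ i)) (hind : PairwiseIndep E) (hnd : ∀ i, ¬ Degenerate (Φ i)) :
    VariationalTimes Φ := by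
  obtain ⟨L, _, _, j, hj⟩ := exists_galois E
  intro J _ t v B _ Y hun
  exact products_and_iff hΦ j hj (nondeg_of_not_degenerate hΦ j hj hind hnd) hun

end

end Pool.Agent.Q64.HC
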