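import Mathlib
import Pool.Agent.Q64.HC.Thms
import Pool.Agent.Q63.MP.Fin

/-!
# Products of noncommutative varieties with abelian varieties with many periods: proofs
-/

set_option autoImplicit false

namespace Pool.Agent.Q64.HC

open Module Pool.Agent.W437.HC Pool.Agent.W437.HD Pool.Agent.TH504.CB Pool.Agent.TH131.GHC

theorem reduces_of_split {W T : Type} [AddCommGroup W] [Module ℚ W] [AddCommGroup T]
    [Module ℂ T] {per : W →+ T} {v : ℕ} {V : Coh v} (h : HodgeClassesSplit per V) :
    NCHodgeReduces per V := fun O =>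
  ⟨times_iff h O, fun hO _ F hP hF => ⟨F, (times_iff h O).2 hO F hF, hP⟩⟩

theorem manyPeriods {g : ℕ} (Z : Matrix (Fin g) (Fin g) ℂ) (hsymm : Z.transpose = Z)
    (hpos : (Z.map Complex.im).PosDef) {v : ℕ} (V : Coh v) (K : Subfield ℂ)
    (hK : ∀ a b, V.z a b ∈ K) (s : Finset (Fin g × Fin g))
    (hs : AlgebraicIndependent K fun a : s => Z a.1.1 a.1.2)
    (hD : IsSimpleAV Z ∧ g ^ 2 < 4 * s.card ∨ 2 * g ^ 2 + 1 < 4 * s.card + 2 * g) (n : ℕ) :
    HodgeClassesSplit (perPow Z n) V ∧ NCHodgeReduces (perPow Z n) V := by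
  obtain ⟨B, r, h1, h2, h3, h4, h5, h6⟩ := Pool.Agent.Q63.MP.main hsymm hpos V K hK s hs
  have hr : r = 0 := by
    rcases hD with ⟨hZ, hD⟩ | hD
    · rcases Nat.eq_zero_or_pos g with hg | hg
      · omega
      have h7 : r ≤ g - 1 := h3 (g - 1) hD (by
        have h8 : g - 1 + 1 = g := by omega
        rw [h8]
        have h9 : g - (g - 1) - 1 = 0 := by omega
        rw [h9, Nat.mul_zero, Nat.zero_mul, Nat.add_zero]
        exact hD)
      rcases hZ B h1 with h8 | h8
      · rw [h8, finrank_bot] at h2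
        omega
      · rw [h8, finrank_top, Module.finrank_fintype_fun_eq_card, Fintype.card_sum,
          Fintype.card_fin] at h2
        omega
    · rcases Nat.eq_zero_or_pos g with hg | hg
      · omega
      obtain ⟨m, rfl⟩ : ∃ m, g = m + 1 := ⟨g - 1, by omega⟩
      have h7 : r ≤ 0 := h3 0 (by nlinarith) (by
        have h8 : m + 1 - 0 - 1 = m := by omega
        rw [h8, Nat.sub_zero]
        nlinarith)
      omega
  have h7 : HodgeClassesSplit (perPow Z n) V := h6 hr n
  exact ⟨h7, reduces_of_split h7⟩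

end Pool.Agent.Q64.HC
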