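import Mathlib
import Pool.Agent.Q64.HC.FDefs
import Pool.Agent.Y1.HZ.Defs

/-!
# The noncommutative variational Hodge conjecture for products with abelian schemes: definitions
-/

set_option autoImplicit false

namespace Pool.Agent.Q64.HC

open NumberField Pool.Agent.H204R3.CM Pool.Agent.TH131.GHC Pool.Agent.TH504.VY
  Pool.Agent.TH504.CB Pool.Agent.Y1.HZ

section

variable {B W T : Type} [AddCommGroup W] [Module ℚ W] [AddCommGroup T] [Module ℂ T]
  (per : B → W →+ T) {v : ℕ}

/-- The restrictions of the classes in `alg b` to the point zero of `A_b` are in `algC b`. -/
def RestrictsTo (alg : B → Submodule ℚ (HAZ W v)) (algC : B → Submodule ℚ (Fin v → ℚ)) : Prop :=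
  ∀ b, ∀ F ∈ alg b, F 0 (fun l => l.elim0) ∈ algC b

/-- The spans `algC b` of the classes of the objects of the fibres `C_b` of an `S`-linear admissible
subcategory `C`, in `K^top (C_b) ⊗ ℚ = ℚ ^ v`, and the spans `alg b` of the classes of the objects of
the fibres of `perf (A) ⊠ C`, in `H (A_b) ⊗ (K^top (C_b) ⊗ ℚ)`, with three properties. A product of
divisor classes on `A_b` is a combination of Chern characters of vector bundles, and the exterior
product of a vector bundle on `A_b` and an object of `C_b` is an object of the product; the direct
image along `A_b` of the tensor product of an object with a vector bundle on `A_b` is an object of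
`C_b`; the objects can be restricted to the point zero of `A_b`. -/
structure ObjectSystem (v : ℕ) where
  /-- the classes of the objects of `perf (A_b) ⊠ C_b` -/
  alg : B → Submodule ℚ (HAZ W v)
  /-- the classes of the objects of `C_b` -/
  algC : B → Submodule ℚ (Fin v → ℚ)
  product : CrossClosed per alg algC
  directImage : IntegralClosed per alg algC
  restrict : RestrictsTo alg algC

variable {per}

/-- The noncommutative variational Hodge conjecture for `C`: a flat class in `K^top (C_b) ⊗ ℚ` which
is a Hodge class for all `b` and the class of an object for one `b` (up to a combination) is so for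
all `b`. -/
def NCVariational (O : ObjectSystem per v) (C : B → Coh v) : Prop :=
  Variational (fun b => IsHodgeOn (C b)) O.algC

/-- The noncommutative variational Hodge conjecture for `perf (A) ⊠ C`. -/
def NCVariationalTimes (O : ObjectSystem per v) (C : B → Coh v) : Prop :=
  Variational (fun b => IsHodgeOnProduct (per b) (C b)) O.alg

/-- The noncommutative variational Hodge conjecture for an `S`-linear admissible subcategory of
`perf (A) ⊠ C`; `P` is the (flat) operation of the projection functor, which maps the classes of
objects of `perf (A_b) ⊠ C_b` to classes of objects. -/
def NCVariationalComponent (O : ObjectSystem per v) (C : B → Coh v)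
    (P : HAZ W v →ₗ[ℚ] HAZ W v) : Prop :=
  (∀ b, (O.alg b).map P ≤ O.alg b) →
    Variational (fun b F => P F = F ∧ IsHodgeOnProduct (per b) (C b) F) fun b => (O.alg b).map P

variable (per)

/-- The noncommutative variational Hodge conjecture for `perf (A) ⊠ C` is equivalent to the
noncommutative variational Hodge conjecture for `C`, and it then holds for all `S`-linear admissible
subcategories of `perf (A) ⊠ C`. -/
def NCVariationalReduces (C : B → Coh v) : Prop :=
  ∀ O : ObjectSystem per v, (NCVariationalTimes O C ↔ NCVariational O C) ∧
    (NCVariational O C → ∀ P, NCVariationalComponent O C P)

/-- If `C` is one fixed admissible subcategory (so that the span of the classes of its objects is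
constant), then the noncommutative variational Hodge conjecture is true for `perf (A) ⊠ C` and its
linear admissible subcategories. -/
def NCVariationalConstant (C : B → Coh v) : Prop :=
  ∀ O : ObjectSystem per v, (∀ b b', O.algC b = O.algC b') →
    NCVariationalTimes O C ∧ ∀ P, NCVariationalComponent O C P

/-- The Hodge classes of `perf (A) ⊠ C` are products, the noncommutative variational Hodge
conjecture for `perf (A) ⊠ C` and its linear admissible subcategories is reduced to `C`, and it is
true if `C` is constant. -/
def NCVariationalFor (C : B → Coh v) : Prop :=
  HodgeClassesAreProducts per C ∧ NCVariationalReduces per C ∧ NCVariationalConstant per C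

end

/-- `NCVariationalForTypes Φ`: let `A` be any product of copies of the abelian varieties with complex
multiplication by the fields `E i` of the CM types `Φ i` (the copies have the indices `j`, and the
types `Φ (t j)`), and let `C` be any linear admissible subcategory over `B` which is unrelated to the
fields `E i`. Then each flat class of `perf (A) ⊠ C` which is a Hodge class for all `b` is a sum of
products of a combination of products of divisor classes on `A` and a flat class of `C` which is a
Hodge class for all `b`; the noncommutative variational Hodge conjecture for `perf (A) ⊠ C` is
equivalent to the one for `C`, and it then holds for all linear admissible subcategories of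
`perf (A) ⊠ C`. -/
def NCVariationalForTypes {ι : Type} {E : ι → Type} [∀ i, Field (E i)] [∀ i, NumberField (E i)]
    (Φ : ∀ i, Set (E i →+* ℂ)) : Prop :=
  ∀ (J : Type) [Fintype J] (t : J → ι) (v : ℕ) (B : Type) [Nonempty B] (C : B → Coh v),
    (∀ i, UnrelatedFamily C (E i)) →
      HodgeClassesAreProducts (fun _ : B => per Φ t) C ∧
        NCVariationalReduces (fun _ : B => per Φ t) C

end Pool.Agent.Q64.HC
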