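import Mathlib
import Pool.Agent.Q64.HC.Fam2
import Pool.Agent.Q64.HC.NVDefs

/-!
# The noncommutative variational Hodge conjecture for products with abelian schemes
-/

set_option autoImplicit false
set_option linter.unusedSectionVars false
set_option linter.unusedVariables false

namespace Pool.Agent.Q64.HC

open Matrix NumberField Module Equiv Pool.Agent.H204R3.CM Pool.Agent.TH131.GHC
  Pool.Agent.H977R3.CM Pool.Agent.TH504.VY Pool.Agent.TH504.CB Pool.Agent.TH170.CM
  Pool.Agent.Y1.HZ Pool.Agent.W546.GHC

noncomputable section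

section

variable {B W T : Type} [AddCommGroup W] [Module ℚ W] [AddCommGroup T] [Module ℂ T]
  {per : B → W →+ T} {v : ℕ} {C : B → Coh v}

theorem oneForm_divisorSpan (p : W →+ T) : oneForm W ∈ divisorSpan p 0 := by
  refine Submodule.subset_span ⟨0, Equiv.equivOfIsEmpty _ _, fun l => l.elim0,
    fun l => l.elim0, fun w => ?_⟩
  have h1 : oneForm W w = 1 := rfl
  rw [h1]
  simp

/-- The system of the spans of classes of cycles. -/
def ObjectSystem.toCycle (O : ObjectSystem per v) : CycleSystem per v where
  alg := O.alg
  algY := O.algC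
  cross_mem := O.product
  integral_mem := O.directImage

theorem ncVariationalReduces (h : VariationalFromY per C) : NCVariationalReduces per C := by
  intro O
  have h1 : NCVariational O C → NCVariationalTimes O C := h O.toCycle
  refine ⟨⟨fun hC x hx b₀ hb₀ b => ?_, h1⟩, fun hC P hP F hF b₀ hb₀ b => ?_⟩
  · have h2 := hC (cross (oneForm W) x) (fun b => isHodge_cross_one (hx b)) b₀
      (O.product b₀ 0 _ (oneForm_divisorSpan _) x hb₀) b
    have h3 := O.restrict b _ h2
    rwa [cross_one_apply] at h3
  · have h2 : F ∈ O.alg b₀ := hP b₀ hb₀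
    have h3 := h1 hC F (fun b => (hF b).2) b₀ h2 b
    exact ⟨F, h3, (hF b).1⟩

end

/-- The noncommutative variational Hodge conjecture for products with abelian varieties with
nondegenerate CM types, for independent fields. -/
theorem ncVariationalForTypes {ι : Type} [Fintype ι] {E : ι → Type} [∀ i, Field (E i)]
    [∀ i, NumberField (E i)] [∀ i, IsCMField (E i)] {Φ : ∀ i, Set (E i →+* ℂ)}
    (hΦ : ∀ i, IsCMType (Φ i)) (hind : PairwiseIndep E) (hnd : ∀ i, ¬ Degenerate (Φ i)) :
    NCVariationalForTypes Φ := by
  intro J _ t v B _ C hun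
  obtain ⟨h1, h2⟩ := variationalTimes hΦ hind hnd J t v B C hun
  exact ⟨h1, ncVariationalReduces fun S => (h2 S).1⟩

end

end Pool.Agent.Q64.HC
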