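import Mathlib
import Pool.Agent.Q64.HC.NV
import Pool.Agent.Q64.HC.MPer
import Pool.Agent.TH504.VY.Main

/-!
# Products of families with a constant abelian variety, split at one point
-/

set_option autoImplicit false
set_option linter.unusedSectionVars false
set_option linter.unusedVariables false

namespace Pool.Agent.Q64.HC

open Matrix Equiv Module Pool.Agent.H204R3.SP Pool.Agent.H204R3.CM Pool.Agent.H194R3.CM
  Pool.Agent.W437.HC Pool.Agent.W437.HD Pool.Agent.W437.HP Pool.Agent.W437.HR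
  Pool.Agent.W548.Odd Pool.Agent.TH125.Small Pool.Agent.TH131.GHC Pool.Agent.TH504.VL
  Pool.Agent.TH504.VY Pool.Agent.TH504.CB Pool.Agent.W546.GHC

noncomputable section

section const

variable {n : ℕ} {g : Fin n → ℕ} {v : ℕ} {B : Type}
  {Z : ∀ i, Matrix (Fin (g i)) (Fin (g i)) ℂ}

/-- The values of a sum of products are Hodge classes. -/
theorem value_of_cross {W T : Type} [AddCommGroup W] [Module ℚ W] [AddCommGroup T] [Module ℂ T]
    {per : W →+ T} {V : Coh v} {F : HAZ W v}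
    (hF : F ∈ crossSpan per V) (k : ℕ) (w : Fin k → W) : F k w ∈ HY V := by
  refine Submodule.span_induction (p := fun F _ => F k w ∈ HY V) ?_ ?_ ?_ ?_ hF
  · rintro _ ⟨k', f, x, -, hx, rfl⟩
    by_cases hk : k = k'
    · subst hk
      have h1 : (cross f x : HAZ W v) k w = f w • x := by
        unfold cross
        rw [Pi.single_eq_same]
        rfl
      rw [h1]
      exact Submodule.smul_mem _ _ hx
    · have h1 : (cross f x : HAZ W v) k w = 0 := by
        unfold cross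
        rw [Pi.single_eq_of_ne hk]
        rfl
      rw [h1]
      exact Submodule.zero_mem _
  · exact Submodule.zero_mem _
  · intro F G _ _ h1 h2
    exact Submodule.add_mem _ h1 h2
  · intro r F _ h1
    exact Submodule.smul_mem _ r h1

theorem opW_of_value {V : Coh v} {F : HAZ (∀ i, Fin (g i) ⊕ Fin (g i) → ℚ) v}
    (h : ∀ k w, F k w ∈ HY V) (k : ℕ) :
    opW (Fin k) (Fin (NB g) ⊕ Fin (NB g)) V.z (cstX (cfP g (F k))) = 0 := by
  funext ⟨I, b⟩
  rw [opW_apply]
  exact congrFun (h k (fun l => EE g (I l))) b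

theorem value_of_opW (hpos : ∀ i, (imM (Z i)).PosDef) {V : Coh v}
    {F : HAZ (∀ i, Fin (g i) ⊕ Fin (g i) → ℚ) v} {k : ℕ}
    (h1 : opW (Fin k) (Fin (NB g) ⊕ Fin (NB g)) V.z (cstX (cfP g (F k))) = 0)
    (w : Fin k → (∀ i, Fin (g i) ⊕ Fin (g i) → ℚ)) : F k w ∈ HY V := by
  have h2 : ∀ I : Fin k → Fin (NB g) ⊕ Fin (NB g), F k (fun l => EE g (I l)) ∈ HY V := by
    intro I
    change V.z *ᵥ cv (F k (fun l => EE g (I l))) = 0
    funext b
    have h3 := congrFun h1 (I, b)
    rw [opW_apply] at h3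
    exact h3
  have h3 : F k w = ∑ I : Fin k → Fin (NB g) ⊕ Fin (NB g), (∏ l, aP g (w l) (I l)) •
      F k (fun l => EE g (I l)) := by
    funext b
    have h4 := congrFun (expand1 (Z := fun i (_ : Fin 0 → ℂ) => Z i) (t₀ := fun l => l.elim0) hpos
      (cmp b (F k))) w
    have h5 : (cmp b (F k)) w = F k w b := rfl
    rw [← h5]
    refine h4.trans ?_
    rw [Frame.pf_apply, Finset.sum_apply]
    unfold evalF
    refine Finset.sum_congr rfl fun I _ => ?_
    rw [Pi.smul_apply, smul_eq_mul, mul_comm]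
    rfl
  rw [h3]
  exact Submodule.sum_mem _ fun I _ => Submodule.smul_mem _ _ (h2 I)

/-- A form with Hodge coordinates is a Hodge class. -/
theorem isHodge_of_isH (hsymm : ∀ i, (Z i)ᵀ = Z i) (hpos : ∀ i, (imM (Z i)).PosDef) {k : ℕ}
    {f : (∀ i, Fin (g i) ⊕ Fin (g i) → ℚ) [⋀^Fin k]→ₗ[ℚ] ℚ}
    (hf : IsH (DZ (bigD ℂ Z)) (cfE (EE g) f)) : IsHodge (perProd Z) f := by
  have h1 := isHodge_pf (frame1 Z hpos) (D := DZ (bigD ℂ Z)) rfl
    (JR_sq ((imM_bigD_posDef _ hpos).isUnit.map Matrix.detMonoidHom)) hf (fun _ => ())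
  have h2 : (evalM (cfE (EE g) f)).compLinearMap (fun _ : Fin k => (frame1 Z hpos).a ()) =
      f.toMultilinearMap := by
    refine MultilinearMap.ext fun w => ?_
    have h4 := congrFun (expand1 (Z := fun i (_ : Fin 0 → ℂ) => Z i) (t₀ := fun l => l.elim0) hpos
      f) w
    refine Eq.trans ?_ h4.symm
    rw [Frame.pf_apply]
    rfl
  have h3 : MultilinearMap.alternatization f.toMultilinearMap = (Nat.factorial k) • f := by
    have := AlternatingMap.coe_alternatization f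
    rw [Fintype.card_fin] at this
    exact this
  rw [h2, h3] at h1
  have h5 := Pool.Agent.TH125.isHodge_smul ((Nat.factorial k : ℚ)⁻¹) h1
  have h6 : ((Nat.factorial k : ℚ)⁻¹) • ((Nat.factorial k) • f) = f := by
    rw [← Nat.cast_smul_eq_nsmul ℚ, smul_smul, inv_mul_cancel₀ (Nat.cast_ne_zero.2
      (Nat.factorial_ne_zero k)), one_smul]
  rwa [h6] at h5

/-- **The reproducing property**, for a constant abelian variety and a family which splits at one
point. -/
theorem mem_of_integrals_const (hsymm : ∀ i, (Z i)ᵀ = Z i) (hpos : ∀ i, (imM (Z i)).PosDef)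
    (hdiv : ∀ (k : ℕ) (f : (∀ i, Fin (g i) ⊕ Fin (g i) → ℚ) [⋀^Fin k]→ₗ[ℚ] ℚ),
      IsHodge (perProd Z) f → f ∈ divisorSpan (perProd Z) k)
    {C : B → Coh v} (b₀ : B)
    (hsplit : ∀ F, IsHodgeOnProduct (perProd Z) (C b₀) F → F ∈ crossSpan (perProd Z) (C b₀))
    {F : HAZ (∀ i, Fin (g i) ⊕ Fin (g i) → ℚ) v}
    (hF : ∀ b, IsHodgeOnProduct (perProd Z) (C b) F)
    {P : Submodule ℚ (HAZ (∀ i, Fin (g i) ⊕ Fin (g i) → ℚ) v)}
    (hP : ∀ (k j : ℕ) (e : Basis (Fin k ⊕ Fin j) ℚ (∀ i, Fin (g i) ⊕ Fin (g i) → ℚ))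
      (f : (∀ i, Fin (g i) ⊕ Fin (g i) → ℚ) [⋀^Fin k]→ₗ[ℚ] ℚ)
      (β : (∀ i, Fin (g i) ⊕ Fin (g i) → ℚ) [⋀^Fin j]→ₗ[ℚ] ℚ),
      f ∈ divisorSpan (perProd Z) k → β ∈ divisorSpan (perProd Z) j →
      (∀ b, IsHodgeOn (C b) (fibreIntegral e F β)) →
        cross f (fibreIntegral e F β) ∈ P) : F ∈ P := by
  classical
  -- the values at the point `b₀` are Hodge classes
  have hv0 : ∀ k w, F k w ∈ HY (C b₀) := value_of_cross (hsplit F (hF b₀))
  have hD : ∀ k, opD (Fin k) (Fin v) (DZ (bigD ℂ Z)) (cstX (cfP g (F k))) = 0 := by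
    intro k
    have h1 := total_zero hpos (C b₀) (hF b₀) k
    rwa [opW_of_value hv0 k, add_zero] at h1
  -- so the values are Hodge classes for all `b`
  have hv : ∀ b k w, F k w ∈ HY (C b) := by
    intro b k w
    have h1 := total_zero hpos (C b) (hF b) k
    rw [hD k, zero_add] at h1
    exact value_of_opW hpos h1 w
  have hint : ∀ {k j : ℕ} (e : Basis (Fin k ⊕ Fin j) ℚ (∀ i, Fin (g i) ⊕ Fin (g i) → ℚ))
      (β : (∀ i, Fin (g i) ⊕ Fin (g i) → ℚ) [⋀^Fin j]→ₗ[ℚ] ℚ) (b : B),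
      fibreIntegral e F β ∈ HY (C b) := by
    intro k j e β b
    unfold fibreIntegral
    refine Submodule.sum_mem _ fun σ _ => ?_
    exact zsmul_mem (Submodule.smul_mem _ _ (hv b k _)) _
  have hcmp : ∀ (k : ℕ) (x : Fin v), cmp x (F k) ∈
      HH (EE g) (fun _ : Unit => DZ (bigD ℂ Z)) k := by
    intro k x _
    have h1 := congrArg (sl x) (hD k)
    rw [sl_opD, map_zero] at h1
    exact h1
  have hspan : ∀ {k : ℕ} (f : (∀ i, Fin (g i) ⊕ Fin (g i) → ℚ) [⋀^Fin k]→ₗ[ℚ] ℚ),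
      f ∈ HH (EE g) (fun _ : Unit => DZ (bigD ℂ Z)) k → f ∈ divisorSpan (perProd Z) k :=
    fun f hf => hdiv _ f (isHodge_of_isH hsymm hpos (hf ()))
  obtain ⟨N, hN⟩ : ∃ N, N = Fintype.card (Fin (NB g) ⊕ Fin (NB g)) := ⟨_, rfl⟩
  have hdim : finrank ℚ (∀ i, Fin (g i) ⊕ Fin (g i) → ℚ) = N := by
    rw [hN]
    exact finrank_eq_card_basis (basisP g)
  have hbig : ∀ k, N < k → F k = 0 := by
    intro k hk
    refine AlternatingMap.ext fun w => ?_
    refine (F k).map_linearDependent w fun hw => ?_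
    have h1 := hw.fintype_card_le_finrank
    rw [Fintype.card_fin, hdim] at h1
    omega
  have hsum : F = ∑ k ∈ Finset.range (N + 1),
      (Pi.single k (F k) : HAZ (∀ i, Fin (g i) ⊕ Fin (g i) → ℚ) v) := by
    funext k
    rw [Finset.sum_apply]
    by_cases hk : k ∈ Finset.range (N + 1)
    · rw [Finset.sum_eq_single k]
      · rw [Pi.single_eq_same]
      · intro l _ hl
        exact Pi.single_eq_of_ne (Ne.symm hl) _
      · intro h0
        exact absurd hk h0
    · rw [Finset.sum_eq_zero]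
      · refine hbig k ?_
        rw [Finset.mem_range] at hk
        omega
      · intro l hl
        refine Pi.single_eq_of_ne ?_ _
        rintro rfl
        exact hk hl
  rw [hsum]
  refine Submodule.sum_mem _ fun k hk => ?_
  rw [Finset.mem_range] at hk
  have hkN : k + (N - k) = Fintype.card (Fin (NB g) ⊕ Fin (NB g)) := by omega
  have hq : Fintype.card (Fin (NB g) ⊕ Fin (NB g)) = Fintype.card (Fin k ⊕ Fin (N - k)) := by
    rw [Fintype.card_sum (α := Fin k), Fintype.card_fin, Fintype.card_fin, hkN]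
  let e : Basis (Fin k ⊕ Fin (N - k)) ℚ (∀ i, Fin (g i) ⊕ Fin (g i) → ℚ) :=
    (basisP g).reindex (Fintype.equivOfCardEq hq)
  refine reproduce (X := Unit) (EE g)
    (fun _ => polOf (bigD_symm hsymm) (imM_bigD_posDef _ hpos))
    (fun x y => rfl) (fun {κ} _ _ f hf => cfE_inj f hf)
    hkN e F (fun x => hcmp k x) fun f hf β hβ => ?_
  exact hP k _ e f β (hspan f hf) (hspan β hβ) fun b => hint e β b

theorem split_at_one (hsymm : ∀ i, (Z i)ᵀ = Z i) (hpos : ∀ i, (imM (Z i)).PosDef)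
    (hdiv : ∀ (k : ℕ) (f : (∀ i, Fin (g i) ⊕ Fin (g i) → ℚ) [⋀^Fin k]→ₗ[ℚ] ℚ),
      IsHodge (perProd Z) f → f ∈ divisorSpan (perProd Z) k)
    {C : B → Coh v} (b₀ : B)
    (hsplit : ∀ F, IsHodgeOnProduct (perProd Z) (C b₀) F → F ∈ crossSpan (perProd Z) (C b₀)) :
    HodgeClassesAreProducts (fun _ : B => perProd Z) C ∧
      VariationalFromY (fun _ : B => perProd Z) C := by
  refine ⟨fun F hF => ?_, fun S hS F hF b₁ hb₁ b => ?_⟩
  · exact mem_of_integrals_const hsymm hpos hdiv b₀ hsplit hF fun k j e f β hf hβ hY =>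
      Submodule.subset_span ⟨k, f, _, fun _ => hf, hY, rfl⟩
  · refine mem_of_integrals_const hsymm hpos hdiv b₀ hsplit hF fun k j e f β hf hβ hY => ?_
    refine S.cross_mem b k f hf _ ?_
    refine hS _ hY b₁ ?_ b
    exact S.integral_mem b₁ F hb₁ k j e β hβ

end const

theorem manyPeriodsFamily {g : ℕ} (Z : Matrix (Fin g) (Fin g) ℂ) (hsymm : Z.transpose = Z)
    (hpos : (Z.map Complex.im).PosDef) {B : Type} (b₀ : B) {v : ℕ} (C : B → Coh v)
    (K : Subfield ℂ) (hK : ∀ a b, (C b₀).z a b ∈ K) (s : Finset (Fin g × Fin g))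
    (hs : AlgebraicIndependent K fun a : s => Z a.1.1 a.1.2)
    (hD : IsSimpleAV Z ∧ g ^ 2 < 4 * s.card ∨ 2 * g ^ 2 + 1 < 4 * s.card + 2 * g) (n : ℕ) :
    HodgeClassesAreProducts (fun _ : B => perPow Z n) C ∧
      NCVariationalReduces (fun _ : B => perPow Z n) C := by
  obtain ⟨A, r, h1, h2, h3, h4, h5, h6⟩ := Pool.Agent.Q63.MP.main hsymm hpos (C b₀) K hK s hs
  have hr : r = 0 := by
    rcases hD with ⟨hZ, hD⟩ | hD
    · rcases Nat.eq_zero_or_pos g with hg | hg
      · omega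
      have h7 : r ≤ g - 1 := h3 (g - 1) hD (by
        have h8 : g - 1 + 1 = g := by omega
        rw [h8]
        have h9 : g - (g - 1) - 1 = 0 := by omega
        rw [h9, Nat.mul_zero, Nat.zero_mul, Nat.add_zero]
        exact hD)
      rcases hZ A h1 with h8 | h8
      · rw [h8, finrank_bot] at h2
        omega
      · rw [h8, finrank_top, Module.finrank_fintype_fun_eq_card, Fintype.card_sum,
          Fintype.card_fin] at h2
        omega
    · rcases Nat.eq_zero_or_pos g with hg | hg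
      · omega
      obtain ⟨m, rfl⟩ : ∃ m, g = m + 1 := ⟨g - 1, by omega⟩
      have h7 : r ≤ 0 := h3 0 (by nlinarith) (by
        have h8 : m + 1 - 0 - 1 = m := by omega
        rw [h8, Nat.sub_zero]
        nlinarith)
      omega
  have h7 := h5 n (by rw [hr]; omega)
  have h8 := h6 hr n
  obtain ⟨h9, h10⟩ := split_at_one (Z := fun _ : Fin n => Z) (fun _ => hsymm) (fun _ => hpos)
    h7 (C := C) b₀ h8
  exact ⟨h9, ncVariationalReduces h10⟩

end

end Pool.Agent.Q64.HC
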